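import Pool.Graph.R_pool_sql_team_seeded_3997aac3.Q153.LK.NEST
import Pool.Graph.R_pool_sql_team_seeded_3997aac3.Q14.LK.Share

/-!
# Job P1: equidistribution of the tables of symbols, for a system of independent elements

The proof of `Pool.Agent.Q153.LK.nest` with the smaller structure `Gd`.
-/

set_option autoImplicit false

namespace Pool.Agent.H40.SH

open NumberField IsDedekindDomain Filter Topology
open Pool.Agent.Q7.LK
open Pool.Agent.Q283.LQ (Sm Box Nest nS)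
open Pool.Agent.Q53.LQ2.NEST (Cs Nm W fin_sm ratio_congr tend_top box_sum lim_W nest_mono)
open Pool.Agent.Q153.LK (mon_ne vl_mon vl_powp res tb_snoc lim_not alg)

open Classical in
/-- The part of the structure `Base` that is needed for the equidistribution. -/
structure Gd (p : ℕ) {F : Type} [Field F] [NumberField F] (y f : ℕ) (u : Fin f → F)
    (π : HeightOneSpectrum (𝓞 F) → F) : Prop where
  ue : ∀ l, u l ≠ 0
  uo : ∀ l v, ¬ Sm y v → vl p v (u l) = 0
  ind : ∀ c : Fin f → ZMod p, IsPow p (mon u c) → c = 0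
  po : ∀ q, ¬ Sm y q → π q ≠ 0 ∧ ∀ v, ¬ Sm y v → vl p v (π q) = if v = q then 1 else 0

variable {p : ℕ} [Fact p.Prime] {F : Type} [Field F] [NumberField F]

theorem indep (hB : S_BAS) {y f : ℕ} {u : Fin f → F} {π : HeightOneSpectrum (𝓞 F) → F}
    (hb : Gd p y f u π) {k : ℕ}
    {q : Fin k → HeightOneSpectrum (𝓞 F)} (hq : Function.Injective q) (hS : ∀ i, ¬ Sm y (q i)) :
    (∀ i, (Fin.append u fun i => π (q i)) i ≠ 0) ∧
    ∀ c : Fin (f + k) → ZMod p, IsPow p (mon (Fin.append u fun i => π (q i)) c) → c = 0 := by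
  have hne : ∀ i, (Fin.append u fun i => π (q i)) i ≠ 0 := by
    intro i
    refine Fin.addCases ?_ ?_ i
    · intro j
      rw [Fin.append_left]
      exact hb.ue j
    · intro j
      rw [Fin.append_right]
      exact (hb.po _ (hS j)).1
  refine ⟨hne, ?_⟩
  intro c hc
  have hmon : mon (Fin.append u fun i => π (q i)) c ≠ 0 := mon_ne hne c
  obtain ⟨s, hs⟩ := hc
  have hp0 : p ≠ 0 := (Fact.out : p.Prime).ne_zero
  have hs0 : s ≠ 0 := by
    rintro rfl
    rw [zero_pow hp0] at hs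
    exact hmon hs
  have h1 : ∀ j : Fin k, c (Fin.natAdd f j) = 0 := by
    intro j
    have h2 := vl_mon hB (q j) hne c
    rw [hs, vl_powp hB _ hs0, Fin.sum_univ_add] at h2
    have h3 : ∀ l : Fin f, vl p (q j) ((Fin.append u fun i => π (q i)) (Fin.castAdd k l)) = 0 := by
      intro l
      rw [Fin.append_left]
      exact hb.uo l _ (hS j)
    have h4 : ∀ i : Fin k, vl p (q j) ((Fin.append u fun i => π (q i)) (Fin.natAdd f i)) =
        if j = i then 1 else 0 := by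
      intro i
      rw [Fin.append_right, (hb.po _ (hS i)).2 _ (hS j)]
      by_cases hij : j = i
      · rw [if_pos hij, if_pos (by rw [hij])]
      · rw [if_neg hij, if_neg fun h => hij (hq h)]
    simp only [h3, h4, mul_zero, Finset.sum_const_zero, zero_add, mul_ite, mul_one,
      Finset.sum_ite_eq, Finset.mem_univ, if_true] at h2
    exact h2.symm
  have h2 : mon (Fin.append u fun i => π (q i)) c = mon u fun l => c (Fin.castAdd k l) := by
    unfold mon
    rw [Fin.prod_univ_add]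
    have h3 : (∏ i : Fin k, (Fin.append u fun i => π (q i)) (Fin.natAdd f i) ^
        (c (Fin.natAdd f i)).val) = 1 := by
      refine Finset.prod_eq_one fun i _ => ?_
      rw [h1 i, ZMod.val_zero, pow_zero]
    rw [h3, mul_one]
    refine Finset.prod_congr rfl fun l _ => ?_
    rw [Fin.append_left]
  have h3 := hb.ind (fun l => c (Fin.castAdd k l)) ⟨s, by rw [← h2, hs]⟩
  funext i
  refine Fin.addCases ?_ ?_ i
  · intro l
    exact congrFun h3 l
  · intro j
    exact h1 j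

theorem lim_Tb (hCH : S_CHEB) (hB : S_BAS) {ζ : F} (hζ : IsPrimitiveRoot ζ p) {y f : ℕ} {u : Fin f → F}
    {π : HeightOneSpectrum (𝓞 F) → F} (hb : Gd p y f u π) {k : ℕ} {q : Fin k → HeightOneSpectrum (𝓞 F)}
    (hq : Function.Injective q) (hS : ∀ i, ¬ Sm y (q i)) {τ : Tab p f (k + 1)}
    (hτ : Tb ζ u π (res τ) q) :
    Tendsto (fun x : ℕ => ((Cs (fun v => W y q v ∧
      Tb ζ u π τ (Fin.snoc (α := fun _ => HeightOneSpectrum (𝓞 F)) q v)) x).ncard : ℝ) / Nm F x)
      atTop (𝓝 (1 / (p : ℝ) ^ (f + k))) := by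
  obtain ⟨h1, h2⟩ := indep hB hb hq hS
  have h3 := hCH p F ζ hζ (f + k) _ h1 h2 (Fin.append (τ.1 (Fin.last k)) fun i : Fin k =>
    τ.2 ⟨(i.castSucc, Fin.last k), Fin.castSucc_lt_last i⟩)
  refine ratio_congr (T := {v | Sm y v} ∪ Set.range q)
    ((fin_sm y).union (Set.finite_range q))
    ?_ h3
  intro v hv
  have h4 : (∀ i, sy p ζ v ((Fin.append u fun i => π (q i)) i) =
      (Fin.append (τ.1 (Fin.last k)) fun i : Fin k =>
        τ.2 ⟨(i.castSucc, Fin.last k), Fin.castSucc_lt_last i⟩) i) ↔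
      (∀ l, sy p ζ v (u l) = τ.1 (Fin.last k) l) ∧
        ∀ i : Fin k, sy p ζ v (π (q i)) = τ.2 ⟨(i.castSucc, Fin.last k), Fin.castSucc_lt_last i⟩ := by
    constructor
    · intro h
      refine ⟨fun l => ?_, fun i => ?_⟩
      · have := h (Fin.castAdd k l)
        rwa [Fin.append_left, Fin.append_left] at this
      · have := h (Fin.natAdd f i)
        rwa [Fin.append_right, Fin.append_right] at this
    · rintro ⟨h, h'⟩ i
      refine Fin.addCases ?_ ?_ i
      · intro l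
        rw [Fin.append_left, Fin.append_left]
        exact h l
      · intro i
        rw [Fin.append_right, Fin.append_right]
        exact h' i
  have h6 : W y q v := ⟨fun h => hv (Or.inl h), fun i h => hv (Or.inr ⟨i, h⟩)⟩
  rw [tb_snoc, h4]
  constructor
  · intro h
    exact ⟨h6, hτ, h⟩
  · intro h
    exact h.2.2

open Classical in
theorem step (hCH : S_CHEB) (hB : S_BAS) {ζ : F} (hζ : IsPrimitiveRoot ζ p) {y f : ℕ} {u : Fin f → F}
    {π : HeightOneSpectrum (𝓞 F) → F} (hb : Gd p y f u π) {k : ℕ} (τ : Tab p f (k + 1)) {ε : ℝ} (hε : 0 < ε) {X : Fin k → ℕ}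
    (h1 : (Box y X : Set (Fin k → HeightOneSpectrum (𝓞 F))).Finite)
    (h2 : 0 < ((Box y X : Set (Fin k → HeightOneSpectrum (𝓞 F))).ncard : ℝ))
    (h3 : |({q ∈ (Box y X : Set (Fin k → HeightOneSpectrum (𝓞 F))) | Tb ζ u π (res τ) q}.ncard : ℝ) /
      ((Box y X : Set (Fin k → HeightOneSpectrum (𝓞 F))).ncard : ℝ) -
        1 / (p : ℝ) ^ (k * f + k * (k - 1) / 2)| ≤ ε / 2) :
    ∀ᶠ x : ℕ in atTop,
    (Box y (Fin.snoc (α := fun _ => ℕ) X x) :
      Set (Fin (k + 1) → HeightOneSpectrum (𝓞 F))).Finite ∧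
    0 < ((Box y (Fin.snoc (α := fun _ => ℕ) X x) :
      Set (Fin (k + 1) → HeightOneSpectrum (𝓞 F))).ncard : ℝ) ∧
    |({q ∈ (Box y (Fin.snoc (α := fun _ => ℕ) X x) :
      Set (Fin (k + 1) → HeightOneSpectrum (𝓞 F))) | Tb ζ u π τ q}.ncard : ℝ) /
      ((Box y (Fin.snoc (α := fun _ => ℕ) X x) :
      Set (Fin (k + 1) → HeightOneSpectrum (𝓞 F))).ncard : ℝ) -
        1 / (p : ℝ) ^ ((k + 1) * f + (k + 1) * (k + 1 - 1) / 2)| ≤ ε := by
  have hp1 : (1 : ℝ) ≤ p := by exact_mod_cast (Fact.out : p.Prime).one_le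
  set B := h1.toFinset with hBdef
  have hBc : ((Box y X : Set (Fin k → HeightOneSpectrum (𝓞 F))).ncard : ℝ) = (B.card : ℝ) := by
    rw [Set.ncard_eq_toFinset_card _ h1]
  have hBt : ({q ∈ (Box y X : Set (Fin k → HeightOneSpectrum (𝓞 F))) |
      Tb ζ u π (res τ) q}.ncard : ℝ) = ((B.filter fun q => Tb ζ u π (res τ) q).card : ℝ) := by
    rw [← Set.ncard_coe_finset]
    congr 2
    ext q
    rw [Finset.mem_coe, Finset.mem_filter, hBdef, Set.Finite.mem_toFinset]
    exact Iff.rfl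
  have hall : ∀ x, (Box y (Fin.snoc (α := fun _ => ℕ) X x) :
      Set (Fin (k + 1) → HeightOneSpectrum (𝓞 F))) =
      {q' ∈ (Box y (Fin.snoc (α := fun _ => ℕ) X x) :
        Set (Fin (k + 1) → HeightOneSpectrum (𝓞 F))) | True} := by
    intro x
    ext q
    exact ⟨fun h => ⟨h, trivial⟩, fun h => h.1⟩
  have l1 : Tendsto (fun x : ℕ => ((Box y (Fin.snoc (α := fun _ => ℕ) X x) :
      Set (Fin (k + 1) → HeightOneSpectrum (𝓞 F))).ncard : ℝ) / Nm F x) atTop
      (𝓝 (B.card : ℝ)) := by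
    have h4 : ∀ x : ℕ, ((Box y (Fin.snoc (α := fun _ => ℕ) X x) :
        Set (Fin (k + 1) → HeightOneSpectrum (𝓞 F))).ncard : ℝ) / Nm F x =
        ∑ q ∈ B, ((Cs (fun v => W y q v ∧ True) x).ncard : ℝ) / Nm F x := by
      intro x
      rw [hall x, (box_sum h1 x fun _ => True).2, Nat.cast_sum, Finset.sum_div]
    simp only [h4]
    have h5 := tendsto_finsetSum B fun q (_ : q ∈ B) => lim_W (F := F) y q
    rw [Finset.sum_const, nsmul_eq_mul, mul_one] at h5
    exact h5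
  have l2 : Tendsto (fun x : ℕ => ({q ∈ (Box y (Fin.snoc (α := fun _ => ℕ) X x) :
      Set (Fin (k + 1) → HeightOneSpectrum (𝓞 F))) | Tb ζ u π τ q}.ncard : ℝ) / Nm F x) atTop
      (𝓝 (((B.filter fun q => Tb ζ u π (res τ) q).card : ℝ) * (1 / (p : ℝ) ^ (f + k)))) := by
    have h4 : ∀ x : ℕ, ({q ∈ (Box y (Fin.snoc (α := fun _ => ℕ) X x) :
        Set (Fin (k + 1) → HeightOneSpectrum (𝓞 F))) | Tb ζ u π τ q}.ncard : ℝ) / Nm F x =
        ∑ q ∈ B, ((Cs (fun v => W y q v ∧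
          Tb ζ u π τ (Fin.snoc (α := fun _ => HeightOneSpectrum (𝓞 F)) q v)) x).ncard : ℝ) /
            Nm F x := by
      intro x
      rw [(box_sum h1 x fun q => Tb ζ u π τ q).2, Nat.cast_sum, Finset.sum_div]
    simp only [h4]
    have h6 : ((B.filter fun q => Tb ζ u π (res τ) q).card : ℝ) * (1 / (p : ℝ) ^ (f + k)) =
        ∑ q ∈ B, if Tb ζ u π (res τ) q then (1 / (p : ℝ) ^ (f + k) : ℝ) else 0 := by
      rw [← Finset.sum_filter, Finset.sum_const, nsmul_eq_mul]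
    rw [h6]
    refine tendsto_finsetSum B fun q hq => ?_
    rw [hBdef, Set.Finite.mem_toFinset] at hq
    by_cases hT : Tb ζ u π (res τ) q
    · rw [if_pos hT]
      exact lim_Tb hCH hB hζ hb hq.1 (fun i => (hq.2 i).1) hT
    · rw [if_neg hT]
      exact lim_not hT
  rw [hBc] at h2 h3
  rw [hBt] at h3
  have l3 := l2.div l1 h2.ne'
  set L : ℝ := ((B.filter fun q => Tb ζ u π (res τ) q).card : ℝ) * (1 / (p : ℝ) ^ (f + k)) / (B.card : ℝ)
    with hL
  have hL2 : |L - 1 / (p : ℝ) ^ ((k + 1) * f + (k + 1) * (k + 1 - 1) / 2)| ≤ ε / 2 := by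
    have e1 : (k + 1) * f + (k + 1) * (k + 1 - 1) / 2 = (k * f + k * (k - 1) / 2) + (f + k) := by
      rw [Nat.triangle_succ]
      ring
    have e2 : L - 1 / (p : ℝ) ^ ((k + 1) * f + (k + 1) * (k + 1 - 1) / 2) =
        (((B.filter fun q => Tb ζ u π (res τ) q).card : ℝ) / (B.card : ℝ) -
          1 / (p : ℝ) ^ (k * f + k * (k - 1) / 2)) * (1 / (p : ℝ) ^ (f + k)) := by
      rw [hL, e1]
      exact alg _ _ _ _ _
    rw [e2, abs_mul]
    have h7 : |(1 / (p : ℝ) ^ (f + k) : ℝ)| ≤ 1 := by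
      rw [abs_of_nonneg (by positivity), div_le_one (by positivity)]
      exact one_le_pow₀ hp1
    calc _ ≤ (ε / 2) * 1 := mul_le_mul h3 h7 (abs_nonneg _) (by positivity)
      _ = ε / 2 := mul_one _
  have h8 := (Metric.tendsto_nhds.1 l3) (ε / 2) (by positivity)
  filter_upwards [h8, l1.eventually_const_lt h2, (tend_top F).eventually_gt_atTop 0]
    with x h9 h10 h11
  refine ⟨?_, ?_, ?_⟩
  · rw [hall x]
    exact (box_sum h1 x fun _ => True).1
  · by_contra hcon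
    have h12 : ((Box y (Fin.snoc (α := fun _ => ℕ) X x) :
      Set (Fin (k + 1) → HeightOneSpectrum (𝓞 F))).ncard : ℝ) = 0 :=
      le_antisymm (not_lt.1 hcon) (Nat.cast_nonneg _)
    rw [h12, zero_div] at h10
    exact lt_irrefl _ h10
  · have h12 : ∀ a b : ℝ, a / Nm F x / (b / Nm F x) = a / b := fun a b =>
      div_div_div_cancel_right₀ h11.ne' a b
    rw [Pi.div_apply, h12, Real.dist_eq] at h9
    rw [abs_le] at hL2 ⊢
    rw [abs_lt] at h9
    constructor <;> linarith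

theorem nest (hCH : S_CHEB) (hB : S_BAS) {ζ : F} (hζ : IsPrimitiveRoot ζ p) {y f : ℕ} {u : Fin f → F}
    {π : HeightOneSpectrum (𝓞 F) → F} (hb : Gd p y f u π) (k : ℕ) :
    ∀ (τ : Tab p f k) (ε : ℝ), 0 < ε → Nest k fun X =>
    (Box y X : Set (Fin k → HeightOneSpectrum (𝓞 F))).Finite ∧
    0 < ((Box y X : Set (Fin k → HeightOneSpectrum (𝓞 F))).ncard : ℝ) ∧
    |({q ∈ (Box y X : Set (Fin k → HeightOneSpectrum (𝓞 F))) | Tb ζ u π τ q}.ncard : ℝ) /
      ((Box y X : Set (Fin k → HeightOneSpectrum (𝓞 F))).ncard : ℝ) -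
        1 / (p : ℝ) ^ (k * f + k * (k - 1) / 2)| ≤ ε := by
  induction k with
  | zero =>
    intro τ ε hε
    have h1 : (Box y (Fin.elim0 : Fin 0 → ℕ) : Set (Fin 0 → HeightOneSpectrum (𝓞 F))) =
        Set.univ := by
      refine Set.eq_univ_of_forall fun q => ⟨fun i => i.elim0, fun i => i.elim0⟩
    have h2 : {q ∈ (Set.univ : Set (Fin 0 → HeightOneSpectrum (𝓞 F))) | Tb ζ u π τ q} =
        Set.univ := by
      refine Set.eq_univ_of_forall fun q => ⟨trivial, fun j => j.elim0, ?_⟩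
      rintro ⟨⟨i, _⟩, _⟩
      exact i.elim0
    show (Box y (Fin.elim0 : Fin 0 → ℕ) : Set (Fin 0 → HeightOneSpectrum (𝓞 F))).Finite ∧ _ ∧ _
    rw [h1, h2]
    have h3 : (Set.univ : Set (Fin 0 → HeightOneSpectrum (𝓞 F))).ncard = 1 := by
      rw [Set.ncard_univ, Nat.card_unique]
    refine ⟨Set.toFinite _, ?_, ?_⟩
    · rw [h3]
      norm_num
    · rw [h3]
      norm_num
      exact hε.le
  | succ k ih =>
    intro τ ε hε
    refine nest_mono k ?_ (ih (res τ) (ε / 2) (by positivity))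
    rintro X ⟨h1, h2, h3⟩
    exact step hCH hB hζ hb τ hε h1 h2 h3


open Classical in
/-- the number of the tuples with a table in `A` -/
theorem ncard_sum {ζ : F} {f k : ℕ} {u : Fin f → F} {π : HeightOneSpectrum (𝓞 F) → F}
    {S : Set (Fin k → HeightOneSpectrum (𝓞 F))} (hS : S.Finite) (A : Finset (Tab p f k)) :
    {q ∈ S | ∃ τ ∈ A, Tb ζ u π τ q}.ncard = ∑ τ ∈ A, {q ∈ S | Tb ζ u π τ q}.ncard := by
  have h1 : {q ∈ S | ∃ τ ∈ A, Tb ζ u π τ q} = ↑(A.biUnion fun τ => hS.toFinset.filter fun q => Tb ζ u π τ q) := by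
    ext q
    simp only [Set.mem_setOf_eq, Finset.coe_biUnion, Finset.mem_coe, Set.mem_iUnion, Finset.coe_filter,
      Set.Finite.mem_toFinset, exists_prop]
    constructor
    · rintro ⟨h, τ, hτ, h2⟩
      exact ⟨τ, hτ, h, h2⟩
    · rintro ⟨τ, hτ, h, h2⟩
      exact ⟨h, τ, hτ, h2⟩
  have h2 : ∀ τ : Tab p f k, {q ∈ S | Tb ζ u π τ q} = ↑(hS.toFinset.filter fun q => Tb ζ u π τ q) := by
    intro τ
    ext q
    simp only [Set.mem_setOf_eq, Finset.coe_filter, Set.Finite.mem_toFinset]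
  rw [h1, Set.ncard_coe_finset, Finset.card_biUnion]
  · refine Finset.sum_congr rfl fun τ _ => ?_
    rw [h2, Set.ncard_coe_finset]
  · intro τ _ τ' _ hne
    rw [Function.onFun, Finset.disjoint_left]
    intro q hq hq'
    rw [Finset.mem_filter] at hq hq'
    exact hne (Pool.Agent.Q14.LK.tb_unique hq.2 hq'.2)

/-- JOB P1. -/
theorem p1' (hCH : S_CHEB) (hB : S_BAS) {ζ : F} (hζ : IsPrimitiveRoot ζ p) {y f : ℕ} {u : Fin f → F}
    {π : HeightOneSpectrum (𝓞 F) → F} (hb : Gd p y f u π) (k : ℕ)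
    (A G : Finset (Tab p f k)) (c : ℝ) (hA : 0 < A.card) (hc : c * A.card < G.card) :
    Nest k fun X =>
    {q ∈ (Box y X : Set (Fin k → HeightOneSpectrum (𝓞 F))) | ∃ τ ∈ A, Tb ζ u π τ q}.Finite ∧
    {q ∈ (Box y X : Set (Fin k → HeightOneSpectrum (𝓞 F))) | ∃ τ ∈ G, Tb ζ u π τ q}.Finite ∧
    0 < {q ∈ (Box y X : Set (Fin k → HeightOneSpectrum (𝓞 F))) | ∃ τ ∈ A, Tb ζ u π τ q}.ncard ∧
    c * ({q ∈ (Box y X : Set (Fin k → HeightOneSpectrum (𝓞 F))) | ∃ τ ∈ A, Tb ζ u π τ q}.ncard : ℝ) <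
      ({q ∈ (Box y X : Set (Fin k → HeightOneSpectrum (𝓞 F))) | ∃ τ ∈ G, Tb ζ u π τ q}.ncard : ℝ) := by
  classical
  have hp0 : (0 : ℝ) < p := by exact_mod_cast (Fact.out : p.Prime).pos
  obtain ⟨M, hM⟩ : ∃ M : ℝ, M = 1 / (p : ℝ) ^ (k * f + k * (k - 1) / 2) := ⟨_, rfl⟩
  have hM0 : 0 < M := by rw [hM]; positivity
  obtain ⟨D, hD⟩ : ∃ D : ℝ, D = G.card + |c| * A.card + A.card + 1 := ⟨_, rfl⟩
  have hD0 : 0 < D := by
    rw [hD]
    have : (0 : ℝ) ≤ G.card := Nat.cast_nonneg _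
    have h2 : (0 : ℝ) ≤ A.card := Nat.cast_nonneg _
    have h3 : 0 ≤ |c| * A.card := mul_nonneg (abs_nonneg _) h2
    linarith
  obtain ⟨δ, hδ⟩ : ∃ δ : ℝ, δ = min 1 (G.card - c * A.card) := ⟨_, rfl⟩
  have hδ0 : 0 < δ := by
    rw [hδ]
    exact lt_min one_pos (by linarith)
  have hδ1 : δ ≤ 1 := hδ ▸ min_le_left _ _
  have hδ2 : δ ≤ G.card - c * A.card := hδ ▸ min_le_right _ _
  obtain ⟨ε, hε⟩ : ∃ ε : ℝ, ε = M * δ / (2 * D) := ⟨_, rfl⟩
  have hε0 : 0 < ε := by rw [hε]; positivity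
  have hεD : ε * D = M * δ / 2 := by
    rw [hε]
    field_simp
  have h1 : Nest k fun X => ∀ τ ∈ (Finset.univ : Finset (Tab p f k)),
      (Box y X : Set (Fin k → HeightOneSpectrum (𝓞 F))).Finite ∧
      0 < ((Box y X : Set (Fin k → HeightOneSpectrum (𝓞 F))).ncard : ℝ) ∧
      |({q ∈ (Box y X : Set (Fin k → HeightOneSpectrum (𝓞 F))) | Tb ζ u π τ q}.ncard : ℝ) /
        ((Box y X : Set (Fin k → HeightOneSpectrum (𝓞 F))).ncard : ℝ) -
          1 / (p : ℝ) ^ (k * f + k * (k - 1) / 2)| ≤ ε :=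
    Pool.Agent.Q14.LK.nest_all k _ _ fun τ _ => nest hCH hB hζ hb k τ ε hε0
  refine nest_mono k ?_ h1
  intro X hX
  obtain ⟨τ0, hτ0⟩ := Finset.card_pos.1 hA
  obtain ⟨hfin, hpos, -⟩ := hX τ0 (Finset.mem_univ _)
  set B : ℝ := ((Box y X : Set (Fin k → HeightOneSpectrum (𝓞 F))).ncard : ℝ) with hBdef
  have hτ : ∀ τ : Tab p f k,
      (M - ε) * B ≤ ({q ∈ (Box y X : Set (Fin k → HeightOneSpectrum (𝓞 F))) | Tb ζ u π τ q}.ncard : ℝ) ∧
      ({q ∈ (Box y X : Set (Fin k → HeightOneSpectrum (𝓞 F))) | Tb ζ u π τ q}.ncard : ℝ) ≤ (M + ε) * B := by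
    intro τ
    have h2 := (hX τ (Finset.mem_univ _)).2.2
    rw [← hM, abs_le] at h2
    constructor
    · rw [← le_div_iff₀ hpos]
      linarith
    · rw [← div_le_iff₀ hpos]
      linarith
  have hsum : ∀ A : Finset (Tab p f k),
      (A.card : ℝ) * ((M - ε) * B) ≤
        ({q ∈ (Box y X : Set (Fin k → HeightOneSpectrum (𝓞 F))) | ∃ τ ∈ A, Tb ζ u π τ q}.ncard : ℝ) ∧
      ({q ∈ (Box y X : Set (Fin k → HeightOneSpectrum (𝓞 F))) | ∃ τ ∈ A, Tb ζ u π τ q}.ncard : ℝ) ≤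
        A.card * ((M + ε) * B) := by
    intro A
    rw [ncard_sum hfin A, Nat.cast_sum]
    constructor
    · rw [← nsmul_eq_mul, ← Finset.sum_const]
      exact Finset.sum_le_sum fun τ _ => (hτ τ).1
    · rw [← nsmul_eq_mul, ← Finset.sum_const]
      exact Finset.sum_le_sum fun τ _ => (hτ τ).2
  have hMε : 0 < M - ε := by
    have hD1 : 1 ≤ D := by
      rw [hD]
      have : (0 : ℝ) ≤ G.card := Nat.cast_nonneg _
      have h2 : (0 : ℝ) ≤ A.card := Nat.cast_nonneg _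
      have h3 : 0 ≤ |c| * A.card := mul_nonneg (abs_nonneg _) h2
      linarith
    have h2 : ε * 1 ≤ ε * D := mul_le_mul_of_nonneg_left hD1 hε0.le
    have h3 : M * δ ≤ M * 1 := mul_le_mul_of_nonneg_left hδ1 hM0.le
    linarith
  refine ⟨hfin.subset fun q hq => hq.1, hfin.subset fun q hq => hq.1, ?_, ?_⟩
  · have h2 : (0 : ℝ) < ({q ∈ (Box y X : Set (Fin k → HeightOneSpectrum (𝓞 F))) |
        ∃ τ ∈ A, Tb ζ u π τ q}.ncard : ℝ) := by
      refine lt_of_lt_of_le ?_ (hsum A).1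
      have : (0 : ℝ) < A.card := by exact_mod_cast hA
      positivity
    exact_mod_cast h2
  · set a : ℝ := ({q ∈ (Box y X : Set (Fin k → HeightOneSpectrum (𝓞 F))) |
        ∃ τ ∈ A, Tb ζ u π τ q}.ncard : ℝ) with ha
    set g : ℝ := ({q ∈ (Box y X : Set (Fin k → HeightOneSpectrum (𝓞 F))) |
        ∃ τ ∈ G, Tb ζ u π τ q}.ncard : ℝ) with hg
    have hcA : c * a ≤ c * (A.card * (M * B)) + |c| * (A.card * (ε * B)) := by
      have h2 : |a - A.card * (M * B)| ≤ A.card * (ε * B) := by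
        have := hsum A
        rw [abs_le]
        constructor
        · have h3 := this.1
          linarith
        · have h3 := this.2
          linarith
      have h3 : c * (a - A.card * (M * B)) ≤ |c| * |a - A.card * (M * B)| := by
        rw [← abs_mul]
        exact le_abs_self _
      have h4 := mul_le_mul_of_nonneg_left h2 (abs_nonneg c)
      linarith
    have h5 := (hsum G).1
    have h6 : 0 < ((G.card : ℝ) - c * A.card) * (M * B) - (G.card + |c| * A.card) * (ε * B) := by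
      have e1 : (G.card + |c| * A.card) * (ε * B) ≤ (ε * D) * B := by
        rw [hD]
        have h2 : (0 : ℝ) ≤ A.card := Nat.cast_nonneg _
        have h3 : 0 ≤ ε * B * (A.card + 1) := by positivity
        nlinarith
      have e2 : δ * (M * B) ≤ ((G.card : ℝ) - c * A.card) * (M * B) :=
        mul_le_mul_of_nonneg_right hδ2 (by positivity)
      rw [hεD] at e1
      have e3 : 0 < δ * (M * B) := by positivity
      have e4 : M * δ / 2 * B = δ * (M * B) / 2 := by ring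
      linarith
    have h7 : (G.card : ℝ) * ((M - ε) * B) - (c * (A.card * (M * B)) + |c| * (A.card * (ε * B))) =
      ((G.card : ℝ) - c * A.card) * (M * B) - (G.card + |c| * A.card) * (ε * B) := by ring
    linarith

end Pool.Agent.H40.SH
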