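import Pool.Agent.H62.SH.Stm2
import Pool.Agent.H68.EX.Loc

/-! # Job P3L: the condition on the local cubes from the nonsingularity of the table -/

set_option autoImplicit false
set_option linter.unusedSectionVars false

namespace Pool.Agent.H40.SH

open NumberField IsDedekindDomain WithZero
open Pool.Agent.H62
open Pool.Agent.Y696 (exp_rep und und_lies exists_above)
open Pool.Agent.Y688 (dn val_rel)
open Pool.Agent.Y682 Pool.Agent.Q285.LK
open Pool.Agent.H68.EX (cube_mod)

section idx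
variable {F : Type} [Field F] [NumberField F] [IsCyclotomicExtension {3} ℚ F] {ζ : F}

theorem idx_one {hζ : IsPrimitiveRoot ζ 3} {p : 𝓞 F} : Idx hζ p 1 0 := by
  unfold Idx
  rw [one_pow, pow_zero, sub_self]
  exact dvd_zero _

theorem idx_pow {hζ : IsPrimitiveRoot ζ 3} {p x : 𝓞 F} {i : ℕ} (hx : Idx hζ p x i) (m : ℕ) :
    Idx hζ p (x ^ m) (m * i) := by
  induction m with
  | zero => rw [pow_zero, zero_mul]; exact idx_one
  | succ m ih =>
    rw [pow_succ, Nat.succ_mul]
    exact ih.mul hx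

open Classical in
theorem idx_prod {hζ : IsPrimitiveRoot ζ 3} {p : 𝓞 F} (s : Finset (𝓞 F)) (f : 𝓞 F → ℕ)
    (j : 𝓞 F → ℕ) (h : ∀ q ∈ s, Idx hζ p q (j q)) :
    Idx hζ p (∏ q ∈ s, q ^ f q) (∑ q ∈ s, f q * j q) := by
  induction s using Finset.induction_on with
  | empty => rw [Finset.prod_empty, Finset.sum_empty]; exact idx_one
  | insert a s ha ih =>
    rw [Finset.prod_insert ha, Finset.sum_insert ha]
    exact (idx_pow (h a (Finset.mem_insert_self _ _)) _).mul
      (ih fun q hq => h q (Finset.mem_insert_of_mem hq))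

/-- a cube has the index zero -/
theorem idx_cube {hζ : IsPrimitiveRoot ζ 3} {p y : 𝓞 F} (hp : Prime p) (h3 : ¬ p ∣ 3)
    (hy : ¬ p ∣ y) : Idx hζ p (y ^ 3) 0 := by
  obtain ⟨m, hm⟩ := three_dvd_Nm hζ hp h3
  have hf := fermat hp hy
  unfold Idx
  rw [← pow_mul, pow_zero, Nat.mul_div_cancel' ⟨m, hm⟩]
  exact hf

end idx

theorem z3sq : ∀ a : ZMod 3, a ≠ 0 → a * a = 1 := by decide

open scoped Classical in
/-- JOB P3L. -/
theorem p3l : Pool.Agent.H62.SH.S_P3L := by
  intro F K _ _ _ _ _ _ _ _ ζ hζ n S T b e hb he j hj hNS x hx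
  have hpid := IsCyclotomicExtension.Rat.three_pid F
  have hQ : ∀ q ∈ S, algebraMap F K (q : F) ≠ 0 := by
    intro q hq
    rw [Ne, map_eq_zero]
    exact fun h => (T.prime q hq).1.ne_zero (by exact_mod_cast h)
  have hz3 : ∀ a : ℕ, ¬ 3 ∣ a → (a : ZMod 3) ≠ 0 := by
    intro a ha h
    exact ha ((ZMod.natCast_eq_zero_iff a 3).1 h)
  have key : ∀ t ∈ S, 3 ∣ ∑ q ∈ S.erase t, (e t * x q + 2 * e q * x t) * j t q := by
    intro t ht
    obtain ⟨P, hPlo⟩ := exists_above (K := K) (hsp (T.prime t ht).1)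
    have hP : algebraMap (𝓞 F) (𝓞 K) t ∈ P.asIdeal := by
      have h1 : t ∈ P.asIdeal.under (𝓞 F) := by
        rw [← hPlo.over]
        exact Ideal.mem_span_singleton_self t
      exact h1
    obtain ⟨d, hd⟩ := hx P ⟨t, ht, hP⟩
    set B : 𝓞 F := ∏ q ∈ S.erase t, q ^ (e t * x q + 2 * e q * x t) with hB
    set Qt := algebraMap F K (t : F) with hQt
    have hQt0 : Qt ≠ 0 := hQ t ht
    have hid : algebraMap F K (B : F) * (Qt ^ (e t * x t)) ^ 3 =
        (algebraMap F K ((∏ p ∈ S, p ^ x p : 𝓞 F) : F)) ^ e t * (b ^ (2 * x t)) ^ 3 := by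
      have e1 : (b ^ (2 * x t)) ^ 3 = (∏ p ∈ S, (algebraMap F K (p : F)) ^ e p) ^ (2 * x t) := by
        rw [← pow_mul, mul_comm _ 3, pow_mul, hb, coe_prod]
      rw [e1, coe_prod, coe_prod, ← Finset.mul_prod_erase S _ ht, ← Finset.mul_prod_erase S _ ht,
        mul_pow, mul_pow, ← Finset.prod_pow, ← Finset.prod_pow]
      have e2 : ∏ p ∈ S.erase t, (algebraMap F K (p : F)) ^ (e t * x p + 2 * e p * x t) =
          (∏ p ∈ S.erase t, ((algebraMap F K (p : F)) ^ x p) ^ e t) *
          ∏ p ∈ S.erase t, ((algebraMap F K (p : F)) ^ e p) ^ (2 * x t) := by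
        rw [← Finset.prod_mul_distrib]
        refine Finset.prod_congr rfl fun q _ => ?_
        rw [← pow_mul, ← pow_mul, ← pow_add]
        congr 1
        ring
      rw [e2, ← hQt]
      have e3 : (Qt ^ (e t * x t)) ^ 3 = (Qt ^ x t) ^ e t * (Qt ^ e t) ^ (2 * x t) := by
        rw [← pow_mul, ← pow_mul, ← pow_mul, ← pow_add]
        congr 1
        ring
      rw [e3]
      ring
    have hVB : P.valuation K (algebraMap F K (B : F)) = 1 := by
      rw [hB, coe_prod, map_prod]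
      refine Finset.prod_eq_one fun q hq => ?_
      have hq' := Finset.mem_erase.1 hq
      rw [map_pow, T.val_unit ht hP hq'.2 hq'.1, one_pow]
    set φ := algebraMap K (P.adicCompletion K) with hφ
    have hφQ : φ (Qt ^ (e t * x t)) ≠ 0 := (map_ne_zero φ).2 (pow_ne_zero _ hQt0)
    obtain ⟨y, hy⟩ := cube_mod T ht hP (B := B) hVB
      (c := d ^ e t * φ (b ^ (2 * x t)) / φ (Qt ^ (e t * x t))) (by
        rw [div_pow, mul_pow, ← pow_mul, mul_comm (e t) 3, pow_mul, hd, div_eq_iff (pow_ne_zero _ hφQ),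
          ← map_pow φ, ← map_pow φ, ← map_pow φ, ← map_mul φ, ← map_mul φ, hid])
    have htp := (T.prime t ht).1
    have ht3 : ¬ t ∣ 3 := by
      intro h
      exact htp.not_isUnit (isUnit_of_dvd_one (by
        have h1 : t ∣ (t - 1) := h.trans (T.prime t ht).2
        have h2 := (dvd_refl t).sub h1
        rwa [sub_sub_cancel] at h2))
    have hBt : ¬ t ∣ B := by
      intro h
      rw [hB] at h
      obtain ⟨q, hq, hq2⟩ := htp.exists_mem_finset_dvd h
      obtain ⟨h6, h7⟩ := Finset.mem_erase.mp hq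
      exact h6 (cop_F T.zeta htp (T.prime q h7).1 (T.prime t ht).2 (T.prime q h7).2
        (htp.dvd_of_dvd_pow hq2)).symm
    have hyt : ¬ t ∣ y := by
      intro h
      apply hBt
      have h1 := hy.add (h.trans (dvd_pow_self y (three_ne_zero)))
      rwa [sub_add_cancel] at h1
    have h1 : Idx hζ t B (∑ q ∈ S.erase t, (e t * x q + 2 * e q * x t) * j t q) := by
      rw [hB]
      exact idx_prod _ _ _ fun q hq => hj t ht q (Finset.mem_erase.1 hq).2 (Finset.mem_erase.1 hq).1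
    have h2 : Idx hζ t B 0 := (idx_cube htp ht3 hyt).congr hy
    have h3 := Idx.uniq ht3 h1 h2
    rw [pow_zero] at h3
    exact hζ.toInteger_isPrimitiveRoot.dvd_of_pow_eq_one _ h3
  -- the linear equations
  have hconst := hNS (fun q => (x q : ZMod 3) * (e q : ZMod 3)) (by
    intro t ht
    have h1 := (ZMod.natCast_eq_zero_iff _ 3).2 (key t ht)
    push_cast at h1
    rw [← h1]
    refine Finset.sum_congr rfl fun q hq => ?_
    have h2 := z3sq _ (hz3 _ (he t ht))
    have h3 := z3sq _ (hz3 _ (he q (Finset.mem_erase.1 hq).2))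
    have h4 : (3 : ZMod 3) = 0 := by decide
    linear_combination ((e t : ZMod 3) * x q * j t q) * h3 - ((e q : ZMod 3) * x t * j t q) * h2 -
      ((e q : ZMod 3) * x t * j t q) * h4)
  rcases S.eq_empty_or_nonempty with hS | ⟨p0, hp0⟩
  · refine ⟨1, ?_⟩
    rw [hS, Finset.prod_empty, one_pow]
    simp
  -- the exponents
  have hcx : ∀ t ∈ S, ∃ k : ℤ, (x t : ℤ) = e p0 * x p0 * e t + 3 * k := by
    intro t ht
    have h1 : (x t : ZMod 3) * (e t : ZMod 3) = (x p0 : ZMod 3) * (e p0 : ZMod 3) :=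
      hconst t ht p0 hp0
    have h2 := z3sq _ (hz3 _ (he t ht))
    have h3 : (((x t : ℤ) : ℤ) : ZMod 3) = ((e p0 * x p0 * e t : ℤ) : ZMod 3) := by
      push_cast
      linear_combination (e t : ZMod 3) * h1 - (x t : ZMod 3) * h2
    rw [ZMod.intCast_eq_intCast_iff, Int.modEq_iff_dvd] at h3
    obtain ⟨k, hk⟩ := h3
    refine ⟨-k, ?_⟩
    push_cast at hk
    linarith
  choose! k hk using hcx
  refine ⟨b ^ (e p0 * x p0) * ∏ t ∈ S, algebraMap F K (t : F) ^ (k t), ?_⟩
  have hbe : b ^ 3 = ∏ t ∈ S, algebraMap F K (t : F) ^ (e t) := by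
    rw [hb, coe_prod]
  have h3 : (b ^ (e p0 * x p0)) ^ 3 = ∏ t ∈ S, algebraMap F K (t : F) ^ (e t * (e p0 * x p0)) := by
    rw [← pow_mul, mul_comm _ 3, pow_mul, hbe, ← Finset.prod_pow]
    refine Finset.prod_congr rfl fun t _ => ?_
    rw [← pow_mul]
  rw [mul_pow, h3, ← Finset.prod_pow, ← Finset.prod_mul_distrib, coe_prod]
  refine Finset.prod_congr rfl fun t ht => ?_
  have h4 := hQ t ht
  rw [← zpow_natCast, ← zpow_natCast, ← zpow_natCast, ← zpow_mul, ← zpow_add₀ h4, hk t ht]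
  congr 1
  push_cast
  ring

end Pool.Agent.H40.SH
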